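import Pool.Agent.TH678.PC.Final

/-!
# How many strings of an oracle must be changed for each pattern of the chain `P ⊆ NP ⊆ PSPACE ⊆ EXP`

An adversary who knows the oracle `O` changes, for all large `n`, at most `g n` of the strings of
length at most `n`; the result is the oracle `A` (`Close g O A`). Which of the seven possible patterns
of equalities and proper inclusions in the chain `P ⊆ NP ⊆ PSPACE ⊆ EXP` can he achieve?

* Each of the six patterns with an equality can be achieved, for every oracle `O`, unless for every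
  `ε > 0` there are infinitely many `n` with `g n ≤ 2 ^ (n ^ ε)`. In that case none of them can be
  achieved, for almost every `O`: relative to each of the `A` even `NP` is not in `coNP/poly`,
  `PSPACE` is not in `PH/poly` and `EXP` is not in `PSPACE/poly`.
* Three proper inclusions, and even `NP ≠ coNP`, can be achieved for every oracle `O` and every `g`
  tending to infinity, however slowly. If `g` does not tend to infinity then `A` and `O` differ in
  finitely many strings only.
-/

set_option autoImplicit false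

namespace Pool.Agent.Results.MP_71c844_lc.ChangedStringsPatterns

open Pool.Agent.NPC Pool.Agent.H620R2.Gauge Filter MeasureTheory
open Pool.Agent.H628R3.RO (randomOracle)
open Pool.Agent.W900.CH (Close)

theorem result (g : ℕ → ℝ) :
    -- the patterns with an equality, many changes
    (∀ a b c : Prop, (a ∨ b ∨ c) → ¬ (a ∧ b ∧ c) →
      (¬ ∀ ε : ℝ, 0 < ε → ∃ᶠ n : ℕ in atTop, g n ≤ 2 ^ (n : ℝ) ^ ε) →
      ∀ O : Oracle, ∃ A, Close g O A ∧ ((∀ L, IsP A L ↔ IsNP A L) ↔ a) ∧
        ((∀ L, IsNP A L ↔ IsPSPACE A L) ↔ b) ∧ ((∀ L, IsPSPACE A L ↔ IsEXP A L) ↔ c)) ∧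
    -- the patterns with an equality, too few changes
    ((∀ ε : ℝ, 0 < ε → ∃ᶠ n : ℕ in atTop, g n ≤ 2 ^ (n : ℝ) ^ ε) →
      ∀ᵐ O ∂randomOracle, ∀ A, Close g O A →
        (¬ ∀ L, IsNP A L → WithAdvice (IsNP A) Lᶜ) ∧ (¬ ∀ L, IsPSPACE A L → IsPHpoly A L) ∧
        ¬ ∀ L, IsEXP A L → WithAdvice (IsPSPACE A) L) ∧
    -- three proper inclusions
    (Tendsto g atTop atTop → ∀ O : Oracle, ∃ A, Close g O A ∧
      (¬ ∀ L, IsNP A L → IsNP A Lᶜ) ∧ (¬ ∀ L, IsP A L ↔ IsNP A L) ∧
      (¬ ∀ L, IsNP A L ↔ IsPSPACE A L) ∧ ¬ ∀ L, IsPSPACE A L ↔ IsEXP A L) ∧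
    (¬ Tendsto g atTop atTop → ∀ O A : Oracle, Close g O A →
      {y : List Bool | A y ≠ O y}.Finite) :=
  Pool.Agent.TH678.PC.mainFew g

end Pool.Agent.Results.MP_71c844_lc.ChangedStringsPatterns
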