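import Pool.Agent.TH678.SW.Final

/-!
# The sizes of the patterns of equalities in the chain `P ⊆ NP ⊆ PSPACE ⊆ EXP`

Relative to an oracle each of the three inclusions is an equality or proper. A pattern tells which
of them are equalities. For every gauge `f` and for each of the six patterns with one or two
equalities, the set of the oracles with this pattern is a null set for `f` if and only if for
every `ε > 0` there are infinitely many `N` with `f N ≤ 2 ^ ((log N) ^ ε)`. The same holds for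
every set `O` of oracles which contains all the oracles with one of these patterns, and is such
that relative to each of its members `NP ⊆ coNP/poly`, `PSPACE ⊆ PH/poly` or `EXP ⊆ PSPACE/poly`;
in particular for the set of the oracles for which some of the three inclusions is an equality.
-/

set_option autoImplicit false

namespace Pool.Agent.Results.MP_71c844_lc.CollapsePatternsGauge

open Pool.Agent.NPC Pool.Agent.H620R2.Gauge

theorem result (f : ℕ → ℝ) :
    (∀ a b c : Prop, (a ∨ b ∨ c) → ¬ (a ∧ b ∧ c) → ∀ O : Set Oracle,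
      (∀ A : Oracle, ((∀ L, IsP A L ↔ IsNP A L) ↔ a) → ((∀ L, IsNP A L ↔ IsPSPACE A L) ↔ b) →
        ((∀ L, IsPSPACE A L ↔ IsEXP A L) ↔ c) → A ∈ O) →
      (∀ A ∈ O, (∀ L, IsNP A L → WithAdvice (IsNP A) Lᶜ) ∨
        (∀ L, IsPSPACE A L → IsPHpoly A L) ∨ (∀ L, IsEXP A L → WithAdvice (IsPSPACE A) L)) →
      (Null f O ↔
        ∀ ε : ℝ, 0 < ε → ∃ᶠ N : ℕ in Filter.atTop, f N ≤ 2 ^ (Real.logb 2 N) ^ ε)) ∧
    (∀ a b c : Prop, (a ∨ b ∨ c) → ¬ (a ∧ b ∧ c) →
      (Null f {A : Oracle | ((∀ L, IsP A L ↔ IsNP A L) ↔ a) ∧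
          ((∀ L, IsNP A L ↔ IsPSPACE A L) ↔ b) ∧ ((∀ L, IsPSPACE A L ↔ IsEXP A L) ↔ c)} ↔
        ∀ ε : ℝ, 0 < ε → ∃ᶠ N : ℕ in Filter.atTop, f N ≤ 2 ^ (Real.logb 2 N) ^ ε)) ∧
    (Null f {A : Oracle | (∀ L, IsP A L ↔ IsNP A L) ∨ (∀ L, IsNP A L ↔ IsPSPACE A L) ∨
        (∀ L, IsPSPACE A L ↔ IsEXP A L)} ↔
      ∀ ε : ℝ, 0 < ε → ∃ᶠ N : ℕ in Filter.atTop, f N ≤ 2 ^ (Real.logb 2 N) ^ ε) :=
  Pool.Agent.TH678.SW.mainPat f

end Pool.Agent.Results.MP_71c844_lc.CollapsePatternsGauge
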