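import Pool.Agent.TH684.DI.Space

/-!
# Distillation of languages which are hard for `PSPACE` or for `EXP`

Polynomial time is Mathlib's `Turing.TM2ComputableInPolyTime`, for functions on bit strings;
`InPSPACE` and `InEXPTIME` are polynomial space and time `2 ^ p (n)` on Mathlib's `Turing.FinTM2`
machines, and hardness is hardness under polynomial-time many-one reductions.

Let `g` be a polynomial-time computable function of bit vectors (of any length) of polynomially large
sensitivity, for example OR, AND, parity or majority. A `g`-distillation of `A` into `B` maps each
nonempty list of strings to one string, whose length is at most polynomial in the length of the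
longest string of the list, no matter how long the list is, and which is in `B` if and only if
`g = 1` on the vector of the answers to the questions `y ∈ A`, `y` in the list.

* `NP = PSPACE` iff some `PSPACE`-hard language has a nondeterministic `g`-distillation, iff all
  languages in `PSPACE` have one.
* `NP = EXP` iff some `EXP`-hard language has a nondeterministic `g`-distillation, iff all languages in
  `EXP` have one.
* If some `EXP`-hard language has a (deterministic) `g`-distillation, for instance an OR-distillation,
  then `P ≠ NP = EXP`. This determines which of the inclusions `P ⊆ NP ⊆ PSPACE ⊆ EXP` are proper.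

For `NP`-hard languages see `MP_609cce_lc.UniformCollapse` and `MP_9cec2c_lc.AndDistillation`: there the
conclusion is `NP = coNP`. The known theorems (Fortnow and Santhanam, Drucker) give a collapse with
advice only: `PSPACE ⊆ NP/poly ∩ coNP/poly`.

Proof. Take a vector at which `g` has many sensitive entries, and reserve for each of them a block of
two strings of the given list of questions. There are more choices of one string from each block than
outputs, so two choices have a common output, and the vector of answers which differs from a constant
vector exactly in one entry, a string which belongs to the first choice only, is impossible. This is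
found by a nondeterministic polynomial-time algorithm. Since `NP = coNP` by the theorem for `NP`-hard
languages, its smallest output has a graph in `NP`, and `NP` has all the closure properties needed for
the theorem that, if one vector of answers can be excluded in a class for a `PSPACE`-hard or an
`EXP`-hard set, then `PSPACE` or `EXP` is in the class (`Pool.Agent.TH762.XC`, `Pool.Agent.TH762.NS`,
`Pool.Agent.W901.NU`).
-/

set_option autoImplicit false

namespace Pool.Agent.Results.MP_71c844_lc.DistillationChain

open Pool.Agent.NPC Pool.Agent.TH684.DI
open Pool.Agent.H623R2.PS (InPSPACE PSPACEHard)
open Pool.Agent.H820R2.SS (InEXPTIME)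
open Pool.Agent.W901.NU (EXPHard)

/-- **Distillation for the classes of the chain.** -/
theorem result (g : List Bool → Bool) (hg : PolyTime (fun z => [g z])) (hs : PolySens g) :
    List.TFAE
      [∀ S : Set (List Bool), InPSPACE S → InNP S,
        ∃ A B : Set (List Bool), PSPACEHard A ∧ NDistills (Val g A) B,
        ∀ A : Set (List Bool), InPSPACE A → ∃ B : Set (List Bool), NDistills (Val g A) B] ∧
    List.TFAE
      [∀ S : Set (List Bool), InEXPTIME S → InNP S,
        ∃ A B : Set (List Bool), EXPHard A ∧ NDistills (Val g A) B,
        ∀ A : Set (List Bool), InEXPTIME A → ∃ B : Set (List Bool), NDistills (Val g A) B] ∧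
    ((∃ A B : Set (List Bool), EXPHard A ∧ Distills (Val g A) B) →
      (∃ S : Set (List Bool), InNP S ∧ ¬ InP S) ∧
        ∀ S : Set (List Bool), InEXPTIME S → InNP S) := by
  refine ⟨pspace_tfae (poly_of_singleton hg) hs, exp_tfae (poly_of_singleton hg) hs, ?_⟩
  rintro ⟨A, B, hA, h⟩
  have h1 : ∀ S : Set (List Bool), InEXPTIME S → InNP S := fun S hS =>
    exp_inNP_of_sens (poly_of_singleton hg) hs hA (ndistills_of_distills h) hS
  obtain ⟨L, h2, h3⟩ := Pool.Agent.H820R2.SS.exists_exptime_not_p
  exact ⟨⟨L, h1 L h2, h3⟩, h1⟩

end Pool.Agent.Results.MP_71c844_lc.DistillationChain
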