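import Pool.Agent.TH762.XC.Laws

/-!
# Exponential time: nothing can be said about the answers to polynomially many questions

`InP`, `InPSPACE`, `InEXPTIME` are `P`, `PSPACE`, `EXP` on Mathlib's Turing machines (`FinTM2`);
`EXPHard A`: every set in `EXP` is reducible to `A` by a polynomial-time many-one reduction.

Let `A` be `EXP`-hard and consider `m` questions `x₁ ∈ A`, ..., `x_m ∈ A` for strings of length at
most `n`, where `m = m (n)` is any number at most polynomial in `n`, for instance `m = n ^ 100`. Their
answers form a vector in `{0, 1} ^ m`. Let a family of polynomially many vectors be given which is
strongly explicit: the entries can be computed in polynomial time from the binary codes of `m`, the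
number of the vector, and the position.

* **Unconditionally**, no polynomial-time algorithm (with `O(log n)` bits of advice) can exclude one
  member of the family, that is, find from the questions a vector of the family which is not the
  vector of the answers. In particular it can neither exclude one of the `m + 1` values of the number
  of positive answers, nor compute this number with `⌊log₂ m⌋` questions to any oracle whatsoever,
  nor find an index `i` such that `x_i` is not the only positive answer, although all indices but at
  most one have this property.
* `PSPACE = EXP` if and only if for some `EXP`-hard set one vector of some such family can be excluded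
  in polynomial space, if and only if this holds for the number of positive answers, if and only if it
  holds for the unit vectors.

Proof. Let `B` be the `EXP`-complete set of derivable nodes of clocked alternating register machines.
For a list `q` of questions on `B` with the vector of answers `w`, the prefixes `v` of `w` are found in
a search tree: for each seed `s` of a pairwise independent family of hash functions the sets
`{(q, j, s, i) : entry i of the vector with the number hash_s (w_1 ... w_j) is 1}` are truth-table
reducible to `B`, so they are in `EXP` and their questions become questions on `A`, whose vector of
answers is the vector with the number `hash_s (w_1 ... w_j)`. The algorithm excludes a number `r_s`,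
and `v` is discarded if `hash_s v = r_s` for some `s`. So polynomially many strings survive, and the
answers to all lists of questions on `B` have candidate lists. These give advice of polynomial
length for `B`, and `B` is decided by guessing the advice and checking the local consistency of all
nodes, in the class of the excluding algorithm if this is closed under polynomially bounded
quantification, like `PSPACE`. For `P` one first gets `P = NP` from the exclusion theorem for
`NP`-hard sets (`MP_8a52c3_lc.OneExcludedVector`), then `EXP = P`, which contradicts the time
hierarchy theorem.
-/

set_option autoImplicit false

namespace Pool.Agent.Results.MP_71c844_lc.ExclusionEXP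

open Pool.Agent.NPC Pool.Agent.TH684.EX Pool.Agent.TH762.XC
open Pool.Agent.W901.NU (EXPHard)
open Pool.Agent.H820R2.SS (InEXPTIME)
open Pool.Agent.H623R2.PS (InPSPACE)

/-- **Exclusion for `EXP`-hard sets**: impossible in polynomial time; possible in polynomial space if
and only if `PSPACE = EXP`. -/
theorem result :
    (∀ A : Set (List Bool), EXPHard A →
      (∀ L : Set (List Bool), InP L → ¬ Feasible (Exclude L A)) ∧ ¬ Feasible (ExcludeCount A) ∧
        ¬ CountQuestions A ∧ ¬ Feasible (NotOnly A)) ∧
    List.TFAE
      [∀ L : Set (List Bool), InEXPTIME L → InPSPACE L,
        ∃ A L : Set (List Bool), EXPHard A ∧ InP L ∧ FeasibleIn InPSPACE (Exclude L A),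
        ∃ A : Set (List Bool), EXPHard A ∧ FeasibleIn InPSPACE (ExcludeCount A),
        ∃ A : Set (List Bool), EXPHard A ∧ FeasibleIn InPSPACE (NotOnly A)] :=
  ⟨fun _ hA => not_feasible_exp hA, class_excl_exp Pool.Agent.W901.NU.cl_pspace⟩

end Pool.Agent.Results.MP_71c844_lc.ExclusionEXP
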